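import Pool.Agent.Helper3_PPX.Stmts
import Pool.Agent.Helper3_PPX.Geo

/-!
# Squad PPX, module CNT: a polynomial of admissible degrees which vanishes on all the lines
-/

set_option autoImplicit false

universe u

namespace Pool.Agent.PPX.H47

open MvPolynomial PGH

theorem num (K₀ M₀ N₁ N₂ d₁ d₂ M nu hx hz C B T Λ : ℕ) (hK : 1 ≤ K₀)
    (hN1 : 4 * K₀ * (12 * M₀ + 4) + 16 ≤ N₁) (hN2 : 4 * K₀ * (12 * M₀ + 4) + 16 ≤ N₂)
    (hadm : K₀ * (d₁ * N₂ + d₂ * N₁) ≤ (K₀ - 1) * (N₁ * N₂)) (hM : M ≤ M₀)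
    (e1 : N₁ * hx ≤ nu + 4 * hx + 3 * hz + 4 * C + B)
    (e2 : N₂ * hz ≤ nu + 4 * hz + 3 * hx + 4 * C + B)
    (hT : T ≤ 2 * (hx + hz) + 2 * C)
    (hL : Λ ≤ 6 * (hx + hz) + 7 * C + (3 * (hx + hz) + 3 * C + B))
    (hnu : nu ≤ d₁ * hx + d₂ * hz + M * T + M * Λ) (hlt : C + B < hx + hz) : False := by
  obtain ⟨K, rfl⟩ := Nat.exists_eq_add_of_le hK
  rw [Nat.add_sub_cancel_left] at hadm
  set Y := hx + hz + C + B with hY
  have a1 : N₁ * hx ≤ nu + 4 * Y := by omega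
  have a2 : N₂ * hz ≤ nu + 4 * Y := by omega
  have a3 : M * T + M * Λ ≤ M₀ * (12 * Y) := by
    rw [← mul_add]
    exact Nat.mul_le_mul hM (by omega)
  have a4 : N₁ * N₂ * nu ≤ (d₁ * N₂ + d₂ * N₁) * (nu + 4 * Y) + N₁ * N₂ * (M₀ * (12 * Y)) := by
    calc N₁ * N₂ * nu ≤ N₁ * N₂ * (d₁ * hx + d₂ * hz + M₀ * (12 * Y)) :=
          Nat.mul_le_mul_left _ (by omega)
      _ = d₁ * N₂ * (N₁ * hx) + d₂ * N₁ * (N₂ * hz) + N₁ * N₂ * (M₀ * (12 * Y)) := by ring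
      _ ≤ d₁ * N₂ * (nu + 4 * Y) + d₂ * N₁ * (nu + 4 * Y) + N₁ * N₂ * (M₀ * (12 * Y)) :=
          Nat.add_le_add_right (Nat.add_le_add (Nat.mul_le_mul_left _ a1)
            (Nat.mul_le_mul_left _ a2)) _
      _ = _ := by ring
  have a5 : N₁ * N₂ * ((1 + K) * nu) ≤
      N₁ * N₂ * (K * (nu + 4 * Y) + (1 + K) * (M₀ * (12 * Y))) := by
    calc N₁ * N₂ * ((1 + K) * nu) = (1 + K) * (N₁ * N₂ * nu) := by ring
      _ ≤ (1 + K) * ((d₁ * N₂ + d₂ * N₁) * (nu + 4 * Y) + N₁ * N₂ * (M₀ * (12 * Y))) :=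
          Nat.mul_le_mul_left _ a4
      _ = ((1 + K) * (d₁ * N₂ + d₂ * N₁)) * (nu + 4 * Y) +
          (1 + K) * (N₁ * N₂ * (M₀ * (12 * Y))) := by ring
      _ ≤ (K * (N₁ * N₂)) * (nu + 4 * Y) + (1 + K) * (N₁ * N₂ * (M₀ * (12 * Y))) :=
          Nat.add_le_add_right (Nat.mul_le_mul_right _ hadm) _
      _ = _ := by ring
  have hN1' : 0 < N₁ := by omega
  have hN2' : 0 < N₂ := by omega
  have a6 := Nat.le_of_mul_le_mul_left a5 (Nat.mul_pos hN1' hN2')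
  have a7 : nu ≤ (1 + K) * (12 * M₀ + 4) * Y := by nlinarith
  have a8 : (4 * (1 + K) * (12 * M₀ + 4) + 16) * (hx + hz) ≤ 2 * nu + 8 * Y := by
    calc (4 * (1 + K) * (12 * M₀ + 4) + 16) * (hx + hz) =
          (4 * (1 + K) * (12 * M₀ + 4) + 16) * hx + (4 * (1 + K) * (12 * M₀ + 4) + 16) * hz := by
          ring
      _ ≤ N₁ * hx + N₂ * hz :=
          Nat.add_le_add (Nat.mul_le_mul_right _ hN1) (Nat.mul_le_mul_right _ hN2)
      _ ≤ _ := by omega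
  have a9 : Y < 2 * (hx + hz) := by omega
  have a10 : (2 * ((1 + K) * (12 * M₀ + 4)) + 8) * Y <
      (2 * ((1 + K) * (12 * M₀ + 4)) + 8) * (2 * (hx + hz)) :=
    Nat.mul_lt_mul_of_pos_left a9 (by positivity)
  nlinarith

section

variable {L E : Type u} [Field L] [Field E] [Algebra L E]

theorem ge_prod {P : Place L E} {ι : Type*} (s : Finset ι) (f : ι → E) (n : ι → ℤ)
    (h : ∀ i ∈ s, P.Ge (n i) (f i)) : P.Ge (∑ i ∈ s, n i) (∏ i ∈ s, f i) := by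
  classical
  induction s using Finset.induction_on with
  | empty => simp
  | insert a s ha ih =>
    rw [Finset.sum_insert ha, Finset.prod_insert ha]
    exact (h a (Finset.mem_insert_self a s)).mul
      (ih fun j hj => h j (Finset.mem_insert_of_mem hj))

theorem ge_aeval {k : Type u} [Field k] [Algebra k L] [Algebra k E] [IsScalarTower k L E]
    (P : Place L E) (e : Fin 4 → E) (n : Fin 4 → ℕ) (Q : P4 k) (hQ : ∀ s ∈ Q.support, ∀ v, s v ≤ n v) :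
    P.Ge (-∑ v, (n v : ℤ) * max 0 (-P.ord (e v))) (aeval e Q) := by
  rw [aeval_def, eval₂_eq']
  refine Place.Ge.sum fun s hs => ?_
  have h1 : P.Ge (∑ v, (s v : ℤ) * (-max 0 (-P.ord (e v)))) (∏ v, e v ^ s v) := by
    refine ge_prod _ _ _ fun v _ => ?_
    exact Place.Ge.pow (P.ge_ord.mono (by omega)) _
  have h2 : P.Ge 0 (algebraMap k E (coeff s Q)) := by
    rw [IsScalarTower.algebraMap_apply k L E]
    exact P.ge_const _
  refine h2.mul' h1 ?_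
  rw [zero_add, ← Finset.sum_neg_distrib]
  refine Finset.sum_le_sum fun v _ => ?_
  have h3 : (s v : ℤ) ≤ n v := by exact_mod_cast hQ s hs v
  have h4 : 0 ≤ max 0 (-P.ord (e v)) := le_max_left _ _
  nlinarith

end

/-- CNT: a polynomial of admissible degrees which vanishes on all the lines vanishes -/
theorem cnt (_ : BoxStmt.{u}) (h2 : NgcStmt.{u}) (h3 : HtlStmt.{u}) : CntStmt.{u} := by
  classical
  intro k L E _ _ _ _ _ _ _ _ _ _ _ D cp sc bd hBp K₀ M₀ N₁ N₂ hK hN1 hN2 a b x z ha hb hDa hDb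
    hDx hDz hPat hlt d₁ d₂ M hadm Q hQ hnode
  obtain ⟨⟨S, hS, e1, e2⟩, hZ⟩ := h2 D cp sc bd hBp a b x z ha hb hDa hDb hDx hDz hPat
  obtain ⟨hT, hL⟩ := h3 D cp sc hBp a b x z hDa hDb hDx hDz _ hZ
  set T := th D x z with hTdef
  set Λ := la D (fun i => algebraMap L E (a i)) (fun j => algebraMap L E (b j)) x z with hΛdef
  by_contra hW
  set W := aeval ![x, z, T, Λ] Q with hWdef
  have hsup : ∀ s ∈ Q.support, ∀ v, s v ≤ ![d₁, d₂, M, M] v := by
    intro s hs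
    have h := (mem_restrictSupport_iff k).1 hQ
    exact h hs
  -- the big finite set
  set s := (finite_support (L := L) W).toFinset ∪ S with hs
  have hsW : ∀ P ∉ s, P.ord W = 0 := by
    intro P hP
    by_contra h0
    apply hP
    rw [hs, Finset.mem_union]
    left
    rw [Set.Finite.mem_toFinset]
    exact h0
  have hpt : ∀ P ∈ s, (if P ∈ S then (1 : ℤ) else 0) -
      (∑ v, ((![d₁, d₂, M, M] v : ℕ) : ℤ) * max 0 (-P.ord (![x, z, T, Λ] v))) ≤ P.ord W := by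
    intro P _
    have hnn : 0 ≤ ∑ v, ((![d₁, d₂, M, M] v : ℕ) : ℤ) * max 0 (-P.ord (![x, z, T, Λ] v)) :=
      Finset.sum_nonneg fun v _ => by positivity
    split_ifs with hPS
    · obtain ⟨i, j, hn⟩ := hS P hPS
      have h1 := (P.ge_iff hW).1 (hnode i j P hn)
      linarith
    · have h1 := (P.ge_iff hW).1 (ge_aeval P ![x, z, T, Λ] ![d₁, d₂, M, M] Q hsup)
      linarith
  have hsum := Finset.sum_le_sum hpt
  rw [sum_ord_eq_zero W s hsW, Finset.sum_sub_distrib, Finset.sum_comm] at hsum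
  have hSs : ∑ P ∈ s, (if P ∈ S then (1 : ℤ) else 0) = S.card := by
    rw [Finset.sum_ite_mem, Finset.sum_const, nsmul_eq_mul, mul_one]
    have : s ∩ S = S := by
      rw [Finset.inter_eq_right]
      exact Finset.subset_union_right
    rw [this]
  rw [hSs] at hsum
  have hb4 : ∑ v : Fin 4, ∑ P ∈ s, ((![d₁, d₂, M, M] v : ℕ) : ℤ) *
      max 0 (-P.ord (![x, z, T, Λ] v)) ≤
      ∑ v : Fin 4, ((![d₁, d₂, M, M] v : ℕ) : ℤ) * ht L (![x, z, T, Λ] v) := by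
    refine Finset.sum_le_sum fun v _ => ?_
    rw [← Finset.mul_sum]
    exact mul_le_mul_of_nonneg_left (sum_poles_le _ _) (by positivity)
  have hnu : S.card ≤ d₁ * ht L x + d₂ * ht L z + M * ht L T + M * ht L Λ := by
    have h1 : (S.card : ℤ) ≤
        ∑ v : Fin 4, ((![d₁, d₂, M, M] v : ℕ) : ℤ) * ht L (![x, z, T, Λ] v) := by linarith
    rw [Fin.sum_univ_four] at h1
    change (S.card : ℤ) ≤ (d₁ : ℤ) * ht L x + d₂ * ht L z + M * ht L T + M * ht L Λ at h1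
    exact_mod_cast h1
  exact num K₀ M₀ N₁ N₂ d₁ d₂ M S.card (ht L x) (ht L z) (∑ P ∈ sc, cp P) bd.card (ht L T) (ht L Λ)
    hK hN1 hN2 hadm.1 hadm.2 e1 e2 hT hL hnu hlt

end Pool.Agent.PPX.H47
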