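import Pool.Agent.Helper3_PPX.Stmts

/-!
# Squad PPX, module SBA: coefficients of the restriction to the lines over `x = α`
-/

set_option autoImplicit false

universe u

namespace Pool.Agent.PPX.H47

open MvPolynomial

section

variable {k : Type u} [Field k]

/-- all coefficients have degree at most `n` in the variable `i` -/
def Dg (i : Fin 2) (n : ℕ) (p : Polynomial (MvPolynomial (Fin 2) k)) : Prop :=
  ∀ l, degreeOf i (p.coeff l) ≤ n

theorem Dg.mul {i : Fin 2} {m n : ℕ} {p q : Polynomial (MvPolynomial (Fin 2) k)} (hp : Dg i m p)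
    (hq : Dg i n q) : Dg i (m + n) (p * q) := by
  intro l
  rw [Polynomial.coeff_mul]
  refine (degreeOf_sum_le _ _ _).trans (Finset.sup_le fun x _ => ?_)
  exact (degreeOf_mul_le _ _ _).trans (add_le_add (hp _) (hq _))

theorem Dg.one {i : Fin 2} : Dg i 0 (1 : Polynomial (MvPolynomial (Fin 2) k)) := by
  intro l
  rw [Polynomial.coeff_one]
  split_ifs
  · rw [degreeOf_one]
  · rw [degreeOf_zero]

theorem Dg.mono {i : Fin 2} {m n : ℕ} {p : Polynomial (MvPolynomial (Fin 2) k)} (hp : Dg i m p)
    (h : m ≤ n) : Dg i n p := fun l => (hp l).trans h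

theorem Dg.pow {i : Fin 2} {m : ℕ} {p : Polynomial (MvPolynomial (Fin 2) k)} (hp : Dg i m p)
    (e : ℕ) : Dg i (e * m) (p ^ e) := by
  induction e with
  | zero =>
    rw [pow_zero, zero_mul]
    exact Dg.one
  | succ e ih =>
    rw [pow_succ, Nat.succ_mul]
    exact ih.mul hp

theorem Dg.sum {i : Fin 2} {m : ℕ} {ι : Type*} (s : Finset ι)
    (f : ι → Polynomial (MvPolynomial (Fin 2) k)) (h : ∀ j ∈ s, Dg i m (f j)) :
    Dg i m (∑ j ∈ s, f j) := by
  intro l
  rw [Polynomial.finsetSum_coeff]
  exact (degreeOf_sum_le _ _ _).trans (Finset.sup_le fun x hx => h x hx l)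

theorem Dg.const {i : Fin 2} {m : ℕ} {G : MvPolynomial (Fin 2) k} (h : degreeOf i G ≤ m) :
    Dg i m (Polynomial.C G) := by
  intro l
  rw [Polynomial.coeff_C]
  split_ifs
  · exact h
  · rw [degreeOf_zero]; exact Nat.zero_le _

theorem Dg.X {i : Fin 2} : Dg i 0 (Polynomial.X : Polynomial (MvPolynomial (Fin 2) k)) := by
  intro l
  rw [Polynomial.coeff_X]
  split_ifs
  · rw [degreeOf_one]
  · rw [degreeOf_zero]

theorem Dg.sub {i : Fin 2} {m : ℕ} {p q : Polynomial (MvPolynomial (Fin 2) k)} (hp : Dg i m p)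
    (hq : Dg i m q) : Dg i m (p - q) := by
  intro l
  rw [Polynomial.coeff_sub]
  exact (degreeOf_sub_le _ _ _).trans (max_le (hp l) (hq l))

theorem Dg.prod {i : Fin 2} {ι : Type*} (s : Finset ι)
    (f : ι → Polynomial (MvPolynomial (Fin 2) k)) (n : ι → ℕ) (h : ∀ j ∈ s, Dg i (n j) (f j)) :
    Dg i (∑ j ∈ s, n j) (∏ j ∈ s, f j) := by
  classical
  induction s using Finset.induction_on with
  | empty =>
    rw [Finset.sum_empty, Finset.prod_empty]
    exact Dg.one
  | insert a s ha ih =>
    rw [Finset.sum_insert ha, Finset.prod_insert ha]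
    exact (h a (Finset.mem_insert_self a s)).mul
      (ih fun j hj => h j (Finset.mem_insert_of_mem hj))

theorem Dg.aeval {i : Fin 2} (f : Fin 4 → Polynomial (MvPolynomial (Fin 2) k)) (v : Fin 4)
    (hv : Dg i 1 (f v)) (h : ∀ w, w ≠ v → Dg i 0 (f w)) (R : P4 k) :
    Dg i (degreeOf v R) (MvPolynomial.aeval f R) := by
  rw [aeval_def, eval₂_eq']
  refine Dg.sum _ _ fun s hs => ?_
  have h1 : Dg i (∑ w, (if w = v then s w else 0)) (∏ w, f w ^ s w) := by
    refine Dg.prod _ _ _ fun w _ => ?_
    split_ifs with hw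
    · rw [hw]
      exact (hv.pow _).mono (by rw [mul_one])
    · exact ((h w hw).pow _).mono (by rw [mul_zero])
  rw [Finset.sum_ite_eq' Finset.univ v, if_pos (Finset.mem_univ v)] at h1
  have h2 : Dg i 0 (algebraMap k (Polynomial (MvPolynomial (Fin 2) k)) (coeff s R)) := by
    refine Dg.const (G := C (coeff s R)) ?_
    rw [degreeOf_C]
  refine (h2.mul h1).mono ?_
  rw [zero_add]
  exact monomial_le_degreeOf v hs

/-- the universal restriction -/
noncomputable def psi (α s : k) : P4 k →ₐ[k] Polynomial (MvPolynomial (Fin 2) k) :=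
  aeval ![Polynomial.C (C α), Polynomial.C (X 0), Polynomial.X,
    Polynomial.C (X 1) - Polynomial.C (C s) * Polynomial.X]

theorem psi_lin (α s β τ : k) (R : P4 k) :
    (psi α s R).map (aeval ![β, τ] : MvPolynomial (Fin 2) k →ₐ[k] k).toRingHom =
      lin α β s τ R := by
  have h : ((Polynomial.mapAlgHom (aeval ![β, τ] : MvPolynomial (Fin 2) k →ₐ[k] k)).comp
      (psi α s)) = lin α β s τ := by
    apply MvPolynomial.algHom_ext
    intro i
    fin_cases i <;> simp [psi, lin]
  exact DFunLike.congr_fun h R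

theorem psi_back (α s : k) (R : P4 k) :
    Polynomial.eval₂ (aeval ![X 1, X 3 + C s * X 2] : MvPolynomial (Fin 2) k →ₐ[k] P4 k).toRingHom
      (X 2) (psi α s R) = aeval ![C α, X 1, X 2, X 3] R := by
  induction R using MvPolynomial.induction_on with
  | C r =>
    rw [psi, aeval_C, aeval_C]
    change Polynomial.eval₂ _ _ (Polynomial.C (C r)) = _
    rw [Polynomial.eval₂_C]
    change aeval _ (C r) = _
    rw [aeval_C]
  | add p q hp hq =>
    rw [map_add, Polynomial.eval₂_add, hp, hq, map_add]
  | mul_X p v hp =>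
    rw [map_mul, Polynomial.eval₂_mul, hp, map_mul]
    congr 1
    rw [psi, aeval_X, aeval_X]
    fin_cases v <;> simp

end

/-- SBA: the coefficients of the restriction to the lines over `x = α` -/
theorem sba : SbaStmt.{u} := by
  intro k _ N α s b t R hR J hJ
  have hne : psi α s R ≠ 0 := by
    intro h0
    apply hR
    rw [← psi_back α s R, h0, Polynomial.eval₂_zero]
  obtain ⟨l, hl⟩ : ∃ l, (psi α s R).coeff l ≠ 0 := by
    by_contra hcon
    push Not at hcon
    exact hne (Polynomial.ext hcon)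
  refine ⟨(psi α s R).coeff l, hl, ?_, ?_, ?_⟩
  · refine Dg.aeval (i := 0) _ 1 ?_ ?_ R l
    · exact Dg.const (by simp)
    · intro w hw
      fin_cases w
      · exact Dg.const (by simp [degreeOf_C])
      · exact absurd rfl hw
      · exact Dg.X
      · exact (Dg.const (by simp [degreeOf_X])).sub
          (((Dg.const (m := 0) (by simp [degreeOf_C])).mul Dg.X).mono le_rfl)
  · refine Dg.aeval (i := 1) _ 3 ?_ ?_ R l
    · exact (Dg.const (by simp)).sub
          (((Dg.const (m := 0) (by simp [degreeOf_C])).mul Dg.X).mono (Nat.zero_le _))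
    · intro w hw
      fin_cases w
      · exact Dg.const (by simp [degreeOf_C])
      · exact Dg.const (by simp [degreeOf_X])
      · exact Dg.X
      · exact absurd rfl hw
  · intro j hj
    have h1 := hJ j hj
    rw [← psi_lin] at h1
    have h2 := congrArg (fun p => Polynomial.coeff p l) h1
    simp only [Polynomial.coeff_map, Polynomial.coeff_zero] at h2
    rw [← coe_aeval_eq_eval]
    exact h2

end Pool.Agent.PPX.H47
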